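import Mathlib

/-!
# Signed sums of four powers of eight
-/

namespace Pool.Agent.Lib.MP_de689f_co

/-- One term relative to the reference term `s * 8 ^ e`. -/
lemma term_cases (e e' : ℕ) (s s' : ℤ) (hs : s = 1 ∨ s = -1) (hs' : s' = 1 ∨ s' = -1)
    (hne : ¬ (e' = e ∧ s' = -s)) :
    ∃ c q w : ℤ, s' * 8 ^ e' = s * c * 8 ^ e + 8 * q * 8 ^ e + w ∧ (c = 0 ∨ c = 1) ∧
      8 * |w| ≤ 8 ^ e := by
  rcases lt_trichotomy e' e with h | h | h
  · refine ⟨0, 0, s' * 8 ^ e', by ring, Or.inl rfl, ?_⟩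
    have h1 : |s' * 8 ^ e'| = (8 : ℤ) ^ e' := by
      rcases hs' with rfl | rfl <;> simp
    rw [h1]
    calc (8 : ℤ) * 8 ^ e' = 8 ^ (e' + 1) := by ring
      _ ≤ 8 ^ e := pow_le_pow_right₀ (by norm_num) h
  · subst h
    have : s' = s := by
      rcases hs with rfl | rfl <;> rcases hs' with rfl | rfl
      · rfl
      · exact absurd ⟨rfl, rfl⟩ hne
      · exact absurd ⟨rfl, by norm_num⟩ hne
      · rfl
    refine ⟨1, 0, 0, by rw [this]; ring, Or.inr rfl, by simp⟩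
  · obtain ⟨d, rfl⟩ : ∃ d, e' = e + 1 + d := ⟨e' - e - 1, by omega⟩
    refine ⟨0, s' * 8 ^ d, 0, by ring, Or.inl rfl, by simp⟩

/-- In a vanishing signed sum of four powers of 8, the first term is cancelled by another. -/
lemma four_terms (e0 e1 e2 e3 : ℕ) (s0 s1 s2 s3 : ℤ) (h0 : s0 = 1 ∨ s0 = -1)
    (h1 : s1 = 1 ∨ s1 = -1) (h2 : s2 = 1 ∨ s2 = -1) (h3 : s3 = 1 ∨ s3 = -1)
    (hsum : s0 * 8 ^ e0 + s1 * 8 ^ e1 + s2 * 8 ^ e2 + s3 * 8 ^ e3 = 0) :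
    (e1 = e0 ∧ s1 = -s0) ∨ (e2 = e0 ∧ s2 = -s0) ∨ (e3 = e0 ∧ s3 = -s0) := by
  by_contra hcon
  push Not at hcon
  obtain ⟨n1, n2, n3⟩ := hcon
  obtain ⟨c1, q1, w1, t1, hc1, hw1⟩ := term_cases e0 e1 s0 s1 h0 h1 (fun h => n1 h.1 h.2)
  obtain ⟨c2, q2, w2, t2, hc2, hw2⟩ := term_cases e0 e2 s0 s2 h0 h2 (fun h => n2 h.1 h.2)
  obtain ⟨c3, q3, w3, t3, hc3, hw3⟩ := term_cases e0 e3 s0 s3 h0 h3 (fun h => n3 h.1 h.2)
  rw [t1, t2, t3] at hsum
  have hE : (0 : ℤ) < 8 ^ e0 := by positivity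
  set E : ℤ := 8 ^ e0 with hEdef
  set t : ℤ := s0 * (1 + c1 + c2 + c3) + 8 * (q1 + q2 + q3) with ht
  have key : t * E = -(w1 + w2 + w3) := by rw [ht]; linear_combination hsum
  have habs : |w1 + w2 + w3| ≤ |w1| + |w2| + |w3| :=
    (abs_add_le _ _).trans (add_le_add_left (abs_add_le _ _) _)
  have hlt : |t * E| < E := by
    rw [key, abs_neg]
    have : 8 * |w1 + w2 + w3| ≤ 3 * E := by linarith
    linarith
  have ht0 : t = 0 := by
    by_contra hne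
    have h1 : 1 ≤ |t| := Int.one_le_abs hne
    have : E ≤ |t * E| := by
      rw [abs_mul, abs_of_pos hE]
      nlinarith
    linarith
  rw [ht] at ht0
  rcases h0 with rfl | rfl <;> rcases hc1 with rfl | rfl <;> rcases hc2 with rfl | rfl <;>
    rcases hc3 with rfl | rfl <;> omega

end Pool.Agent.Lib.MP_de689f_co
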