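import Mathlib

/-!
# Kempe changes and Kempe equivalence
-/

namespace Pool.Agent.Lib.MP_de689f_co

variable {V : Type} (G : SimpleGraph V) {m : ℕ}

/-- The vertices coloured `a` or `b`. -/
def bicol (α : V → Fin m) (a b : Fin m) : Set V := {v | α v = a ∨ α v = b}

/-- `β` arises from `α` by one Kempe change: for some colours `a ≠ b` and some vertex `v₀`
coloured `a` or `b`, the colours `a` and `b` are exchanged on the connected component of `v₀`
in the subgraph induced by the vertices coloured `a` or `b`. -/
def KempeStep (α β : G.Coloring (Fin m)) : Prop :=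
  ∃ a b : Fin m, a ≠ b ∧ ∃ v₀ : bicol α a b,
    (∀ v : bicol α a b, (G.induce (bicol α a b)).Reachable v₀ v → β v = Equiv.swap a b (α v)) ∧
    (∀ v : V, (∀ h : v ∈ bicol α a b, ¬ (G.induce (bicol α a b)).Reachable v₀ ⟨v, h⟩) → β v = α v)

/-- Kempe equivalence: a finite sequence of Kempe changes leads from `α` to `β`. -/
def KempeEquiv (α β : G.Coloring (Fin m)) : Prop :=
  Relation.ReflTransGen (KempeStep G) α β

/-- If all bichromatic subgraphs of `α` are connected, then every colouring reachable from `α`
is obtained by permuting the colours of `α`. -/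
theorem frozen_reach {α β : G.Coloring (Fin m)}
    (hfro : ∀ a b : Fin m, a ≠ b → ∀ u v : bicol α a b,
      (G.induce (bicol α a b)).Reachable u v)
    (h : KempeEquiv G α β) : ∃ σ : Equiv.Perm (Fin m), ∀ v, β v = σ (α v) := by
  induction h with
  | refl => exact ⟨Equiv.refl _, fun v => rfl⟩
  | tail _ hstep ih =>
    rename_i β γ _
    obtain ⟨σ, hσ⟩ := ih
    obtain ⟨a, b, hab, v₀, h1, h2⟩ := hstep
    refine ⟨σ.trans (Equiv.swap a b), fun v => ?_⟩
    have hset : bicol β a b = bicol α (σ.symm a) (σ.symm b) := by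
      ext w
      simp only [bicol, Set.mem_setOf_eq, hσ w, Equiv.eq_symm_apply]
    have hreach : ∀ u w : bicol β a b, (G.induce (bicol β a b)).Reachable u w := by
      rw [hset]
      exact hfro _ _ (fun h => hab (σ.symm.injective h))
    by_cases hv : v ∈ bicol β a b
    · rw [h1 ⟨v, hv⟩ (hreach v₀ ⟨v, hv⟩)]
      simp only [Equiv.trans_apply, hσ v]
    · rw [h2 v (fun h => absurd h hv)]
      simp only [Equiv.trans_apply, ← hσ v]
      have hva : β v ≠ a := fun h => hv (Or.inl h)
      have hvb : β v ≠ b := fun h => hv (Or.inr h)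
      rw [Equiv.swap_apply_of_ne_of_ne hva hvb]

/-- A frozen colouring using all colours is not equivalent to a non-surjective one. -/
theorem not_equiv_of_frozen {α β : G.Coloring (Fin m)}
    (hfro : ∀ a b : Fin m, a ≠ b → ∀ u v : bicol α a b,
      (G.induce (bicol α a b)).Reachable u v)
    (hα : Function.Surjective α) (hβ : ¬ Function.Surjective β) : ¬ KempeEquiv G α β := by
  intro h
  obtain ⟨σ, hσ⟩ := frozen_reach G hfro h
  apply hβ
  intro c
  obtain ⟨v, hv⟩ := hα (σ.symm c)
  exact ⟨v, by rw [hσ, hv]; simp⟩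

end Pool.Agent.Lib.MP_de689f_co
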