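import Mathlib
import Pool.Agent.Lib.MP_de689f_co.Kempe
import Pool.Agent.Lib.MP_de689f_co.Arith

/-!
# A graph without 4-cycles, 3-colourable, with a Kempe frozen `m`-colouring

The vertices are `Fin m × ZMod N` with `N` a power of three. For `i < j` the vertex `(i, x)` is
joined to `(j, x + 8 ^ q)` for two exponents `q` that are private to the pair `(i, j)`.
-/

namespace Pool.Agent.Lib.MP_de689f_co

/-- The exponent number `t` of the pair `(i, j)`. -/
def code (m : ℕ) (i j : Fin m) (t : ℕ) : ℕ := 2 * (i.val * m + j.val) + t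

lemma code_inj {m : ℕ} {i j i' j' : Fin m} {t t' : ℕ} (ht : t < 2) (ht' : t' < 2)
    (h : code m i j t = code m i' j' t') : i = i' ∧ j = j' := by
  unfold code at h
  have h1 : i.val * m + j.val = i'.val * m + j'.val := by omega
  have hj := j.isLt
  have hj' := j'.isLt
  have hm : 0 < m := by omega
  have h2 : (i.val * m + j.val) / m = i.val := by
    rw [Nat.mul_comm, Nat.mul_add_div hm, Nat.div_eq_of_lt hj]; simp
  have h3 : (i'.val * m + j'.val) / m = i'.val := by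
    rw [Nat.mul_comm, Nat.mul_add_div hm, Nat.div_eq_of_lt hj']; simp
  have hi : i.val = i'.val := by rw [← h2, ← h3, h1]
  refine ⟨Fin.ext hi, Fin.ext ?_⟩
  rw [hi] at h1
  omega

lemma code_lt {m : ℕ} {i j : Fin m} {t : ℕ} (ht : t < 2) : code m i j t < 2 * (m * m) := by
  unfold code
  have hi := i.isLt
  have hj := j.isLt
  have : (i.val + 1) * m ≤ m * m := Nat.mul_le_mul_right m hi
  rw [Nat.add_mul] at this
  omega

/-- Adjacency from a smaller class to a larger one. -/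
def Rel (m N : ℕ) (p q : Fin m × ZMod N) : Prop :=
  p.1 < q.1 ∧ ∃ t : ℕ, t < 2 ∧ q.2 = p.2 + (8 : ZMod N) ^ code m p.1 q.1 t

/-- The graph. -/
def H (m N : ℕ) : SimpleGraph (Fin m × ZMod N) := SimpleGraph.fromRel (Rel m N)

lemma adj_of_rel {m N : ℕ} {p q : Fin m × ZMod N} (h : Rel m N p q) : (H m N).Adj p q := by
  unfold H
  rw [SimpleGraph.fromRel_adj]
  refine ⟨?_, Or.inl h⟩
  intro he
  exact absurd (congrArg Prod.fst he) (ne_of_lt h.1)

lemma edge_data {m N : ℕ} {p q : Fin m × ZMod N} (h : (H m N).Adj p q) :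
    ∃ (s : ℤ) (e : ℕ), (s = 1 ∨ s = -1) ∧ e < 2 * (m * m) ∧
      q.2 = p.2 + ((s * 8 ^ e : ℤ) : ZMod N) ∧
      ∃ t < 2, (s = 1 ∧ p.1 < q.1 ∧ e = code m p.1 q.1 t) ∨
        (s = -1 ∧ q.1 < p.1 ∧ e = code m q.1 p.1 t) := by
  unfold H at h
  rw [SimpleGraph.fromRel_adj] at h
  rcases h.2 with ⟨hlt, t, ht, hq⟩ | ⟨hlt, t, ht, hq⟩
  · refine ⟨1, code m p.1 q.1 t, Or.inl rfl, code_lt ht, ?_, t, ht, Or.inl ⟨rfl, hlt, rfl⟩⟩
    rw [hq]; push_cast; ring
  · refine ⟨-1, code m q.1 p.1 t, Or.inr rfl, code_lt ht, ?_, t, ht, Or.inr ⟨rfl, hlt, rfl⟩⟩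
    rw [hq]; push_cast; ring

lemma fst_ne {m N : ℕ} {p q : Fin m × ZMod N} (h : (H m N).Adj p q) : p.1 ≠ q.1 := by
  unfold H at h
  rw [SimpleGraph.fromRel_adj] at h
  rcases h.2 with ⟨hlt, _⟩ | ⟨hlt, _⟩
  · exact ne_of_lt hlt
  · exact (ne_of_lt hlt).symm

/-- There is no 4-cycle (induced or not). -/
theorem no_four_cycle {m N : ℕ} (hN : 4 * 8 ^ (2 * (m * m)) < N) {p0 p1 p2 p3 : Fin m × ZMod N}
    (a01 : (H m N).Adj p0 p1) (a12 : (H m N).Adj p1 p2) (a23 : (H m N).Adj p2 p3)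
    (a30 : (H m N).Adj p3 p0) (n02 : p0 ≠ p2) (n13 : p1 ≠ p3) : False := by
  obtain ⟨s0, e0, hs0, he0, h0, t0, ht0, c0⟩ := edge_data a01
  obtain ⟨s1, e1, hs1, he1, h1, t1, ht1, c1⟩ := edge_data a12
  obtain ⟨s2, e2, hs2, he2, h2, t2, ht2, c2⟩ := edge_data a23
  obtain ⟨s3, e3, hs3, he3, h3, t3, ht3, c3⟩ := edge_data a30
  have hz : ((s0 * 8 ^ e0 + s1 * 8 ^ e1 + s2 * 8 ^ e2 + s3 * 8 ^ e3 : ℤ) : ZMod N) = 0 := by
    rw [h2, h1, h0] at h3
    push_cast at h3 ⊢
    linear_combination -h3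
  have hdvd : (N : ℤ) ∣ (s0 * 8 ^ e0 + s1 * 8 ^ e1 + s2 * 8 ^ e2 + s3 * 8 ^ e3) :=
    (ZMod.intCast_zmod_eq_zero_iff_dvd _ N).mp hz
  have hb : ∀ (s : ℤ) (e : ℕ), (s = 1 ∨ s = -1) → e < 2 * (m * m) →
      |s * 8 ^ e| ≤ (8 : ℤ) ^ (2 * (m * m)) := by
    intro s e hs he
    have : |s * 8 ^ e| = (8 : ℤ) ^ e := by
      rcases hs with rfl | rfl <;> simp
    rw [this]
    exact pow_le_pow_right₀ (by norm_num) he.le
  have hsum : s0 * 8 ^ e0 + s1 * 8 ^ e1 + s2 * 8 ^ e2 + s3 * 8 ^ e3 = 0 := by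
    apply Int.eq_zero_of_abs_lt_dvd hdvd
    have b0 := hb s0 e0 hs0 he0
    have b1 := hb s1 e1 hs1 he1
    have b2 := hb s2 e2 hs2 he2
    have b3 := hb s3 e3 hs3 he3
    have hN' : (4 * 8 ^ (2 * (m * m)) : ℤ) < N := by exact_mod_cast hN
    rw [abs_le] at b0 b1 b2 b3
    rw [abs_lt]
    constructor <;> linarith [b0.1, b0.2, b1.1, b1.2, b2.1, b2.2, b3.1, b3.2]
  rcases four_terms e0 e1 e2 e3 s0 s1 s2 s3 hs0 hs1 hs2 hs3 hsum with ⟨he, hs⟩ | ⟨he, hs⟩ | ⟨he, hs⟩
  · -- backtracking at `p1`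
    apply n02
    have hfst : p0.1 = p2.1 := by
      rcases c0 with ⟨g1, g2, g3⟩ | ⟨g1, g2, g3⟩ <;> rcases c1 with ⟨k1, k2, k3⟩ | ⟨k1, k2, k3⟩
      · exfalso; omega
      · exact (code_inj ht0 ht1 (g3.symm.trans (he.symm.trans k3))).1
      · exact (code_inj ht0 ht1 (g3.symm.trans (he.symm.trans k3))).2
      · exfalso; omega
    refine Prod.ext hfst ?_
    rw [h1, h0, he, hs]
    push_cast
    ring
  · -- the opposite edge
    have hne := fst_ne a12
    rcases c0 with ⟨g1, g2, g3⟩ | ⟨g1, g2, g3⟩ <;> rcases c2 with ⟨k1, k2, k3⟩ | ⟨k1, k2, k3⟩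
    · omega
    · exact hne (code_inj ht0 ht2 (g3.symm.trans (he.symm.trans k3))).2
    · exact hne (code_inj ht0 ht2 (g3.symm.trans (he.symm.trans k3))).1
    · omega
  · -- backtracking at `p0`
    apply n13
    have hfst : p1.1 = p3.1 := by
      rcases c0 with ⟨g1, g2, g3⟩ | ⟨g1, g2, g3⟩ <;> rcases c3 with ⟨k1, k2, k3⟩ | ⟨k1, k2, k3⟩
      · exfalso; omega
      · exact (code_inj ht0 ht3 (g3.symm.trans (he.symm.trans k3))).2
      · exact (code_inj ht0 ht3 (g3.symm.trans (he.symm.trans k3))).1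
      · exfalso; omega
    refine Prod.ext hfst ?_
    have h3' : p3.2 = p0.2 - ((s3 * 8 ^ e3 : ℤ) : ZMod N) := by rw [h3]; ring
    rw [h3', h0, he, hs]
    push_cast
    ring

/-- The graph is 3-colourable if `3 ∣ N`. -/
theorem colorable_three {m N : ℕ} (h3 : 3 ∣ N) : (H m N).Colorable 3 := by
  have hcol : (H m N).Coloring (ZMod 3) := SimpleGraph.Coloring.mk
    (fun p => ZMod.castHom h3 (ZMod 3) p.2) (by
      intro p q hadj heq
      obtain ⟨s, e, hs, _, hq, _⟩ := edge_data hadj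
      rw [hq, map_add] at heq
      have h1 : ZMod.castHom h3 (ZMod 3) ((s * 8 ^ e : ℤ) : ZMod N) = 0 := by
        have := heq
        rw [left_eq_add] at this
        exact this
      rw [map_intCast] at h1
      have h2 := (ZMod.intCast_zmod_eq_zero_iff_dvd _ 3).mp h1
      have hp : Prime (3 : ℤ) := Int.prime_three
      have h2' : (3 : ℤ) ∣ s * 8 ^ e := h2
      rcases hp.dvd_or_dvd h2' with h | h
      · rcases hs with rfl | rfl <;> omega
      · have := hp.dvd_of_dvd_pow h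
        omega)
  exact hcol.colorable

/-- The class colouring. -/
def cls (m N : ℕ) : (H m N).Coloring (Fin m) :=
  SimpleGraph.Coloring.mk (fun p => p.1) (fun {_ _} h => fst_ne h)

lemma cls_apply {m N : ℕ} (p : Fin m × ZMod N) : cls m N p = p.1 := rfl

/-- All bichromatic subgraphs of the class colouring are connected. -/
theorem cls_frozen {m E : ℕ} (a b : Fin m) (hab : a ≠ b) :
    ∀ u v : bicol (cls m (3 ^ E)) a b,
      ((H m (3 ^ E)).induce (bicol (cls m (3 ^ E)) a b)).Reachable u v := by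
  -- reduce to `a < b`
  wlog hlt : a < b generalizing a b with Hw
  · have hsymm : bicol (cls m (3 ^ E)) a b = bicol (cls m (3 ^ E)) b a := by
      ext w; simp only [bicol, Set.mem_ofPred_eq]; exact or_comm
    rw [hsymm]
    exact Hw b a hab.symm (lt_of_le_of_ne (not_lt.mp hlt) hab.symm)
  set N := 3 ^ E with hN
  have : NeZero N := ⟨by positivity⟩
  set S := bicol (cls m N) a b with hS
  set G' := (H m N).induce S with hG'
  let va : ZMod N → S := fun x => ⟨(a, x), Or.inl rfl⟩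
  let vb : ZMod N → S := fun x => ⟨(b, x), Or.inr rfl⟩
  set c := 2 * (a.val * m + b.val) with hc
  have hadj : ∀ x (t : ℕ), t < 2 → G'.Adj (va x) (vb (x + 8 ^ (c + t))) := by
    intro x t ht
    apply adj_of_rel
    exact ⟨hlt, t, ht, rfl⟩
  set d : ZMod N := 8 ^ (c + 1) - 8 ^ (c + 0) with hd
  have hstep : ∀ x, G'.Reachable (va x) (va (x + d)) := by
    intro x
    have h1 := (hadj x 1 (by norm_num)).reachable
    have h2 := (hadj (x + d) 0 (by norm_num)).reachable
    have h3 : x + d + 8 ^ (c + 0) = x + 8 ^ (c + 1) := by rw [hd]; ring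
    rw [h3] at h2
    exact h1.trans h2.symm
  have hmul : ∀ (n : ℕ) x, G'.Reachable (va x) (va (x + n * d)) := by
    intro n
    induction n with
    | zero => intro x; simp only [Nat.cast_zero, zero_mul, add_zero]; exact SimpleGraph.Reachable.refl _
    | succ n ih =>
      intro x
      have h1 := ih x
      have h2 := hstep (x + n * d)
      have h3 : x + n * d + d = x + ((n + 1 : ℕ) : ZMod N) * d := by push_cast; ring
      rw [h3] at h2
      exact h1.trans h2
  have hunit : IsUnit d := by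
    have h1 : d = ((7 * 8 ^ c : ℕ) : ZMod N) := by
      rw [hd]; push_cast; ring
    rw [h1, ZMod.isUnit_iff_coprime, hN]
    apply Nat.Coprime.pow_right
    apply Nat.Coprime.mul_left
    · norm_num
    · apply Nat.Coprime.pow_left; norm_num
  obtain ⟨du, hdu⟩ := hunit
  have hall : ∀ x y, G'.Reachable (va x) (va y) := by
    intro x y
    have h1 := hmul ((y - x) * (du⁻¹ : (ZMod N)ˣ)).val x
    have h2 : x + (((y - x) * (du⁻¹ : (ZMod N)ˣ)).val : ZMod N) * d = y := by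
      rw [ZMod.natCast_zmod_val, ← hdu, mul_assoc, Units.inv_mul, mul_one]
      ring
    rwa [h2] at h1
  have hb : ∀ y, G'.Reachable (va 0) (vb y) := by
    intro y
    have h1 := hall 0 (y - 8 ^ (c + 0))
    have h2 := (hadj (y - 8 ^ (c + 0)) 0 (by norm_num)).reachable
    have h3 : y - 8 ^ (c + 0) + 8 ^ (c + 0) = y := by ring
    rw [h3] at h2
    exact h1.trans h2
  have h0 : ∀ u : S, G'.Reachable (va 0) u := by
    rintro ⟨⟨i, x⟩, hi⟩
    rcases hi with hi | hi
    · rw [cls_apply] at hi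
      simp only at hi
      subst hi
      exact hall 0 x
    · rw [cls_apply] at hi
      simp only at hi
      subst hi
      exact hb x
  intro u v
  exact (h0 u).symm.trans (h0 v)

end Pool.Agent.Lib.MP_de689f_co
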